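import Mathlib

/-!
# LS16a: the polynomial inequality `D3`

After `η = w / 3` and `s = (3957 / 5000 - η) v / 2` every coefficient of the polynomial in `Y` has
nonnegative Bernstein coefficients in `(w, v)`, up to an explicit constant.
-/

set_option autoImplicit false
set_option linter.style.longLine false

namespace Pool.Agent.N868.LS

/-- the coefficient of `Y ^ 1` -/
noncomputable def co0 (η s : ℝ) : ℝ :=
  (51/125) + (-1)*s + (-1/2)*η

theorem co0_ge {w v : ℝ} (hw : 0 ≤ w) (hw1 : 0 ≤ 1 - w) (hv : 0 ≤ v) (hv1 : 0 ≤ 1 - v) :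
    (3/250) ≤ co0 (w / 3) ((3957 / 5000 - w / 3) * v / 2) := by
  have h : 0 ≤
      (99/250)*(1-w)*(1-v) +
      (3/10000)*(1-w)*v +
      (86/375)*w*(1-v) +
      (3/10000)*w*v := by
    positivity
  have e : co0 (w / 3) ((3957 / 5000 - w / 3) * v / 2) - (3/250) =
      (99/250)*(1-w)*(1-v) +
      (3/10000)*(1-w)*v +
      (86/375)*w*(1-v) +
      (3/10000)*w*v := by
    unfold co0
    ring
  linarith

/-- the coefficient of `Y ^ 2` -/
noncomputable def co1 (η s : ℝ) : ℝ :=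
  (1553/1000) + (-1023/250)*s + (1/2)*s^2 + (-579/250)*η + 2*η*s + (1/2)*η^2

theorem co1_ge {w v : ℝ} (hw : 0 ≤ w) (hw1 : 0 ≤ 1 - w) (hv : 0 ≤ v) (hv1 : 0 ≤ 1 - v) :
    (3/250) ≤ co1 (w / 3) ((3957 / 5000 - w / 3) * v / 2) := by
  have h : 0 ≤
      (1541/1000)*(1-w)^2*(1-v)^2 +
      (3656989/2500000)*(1-w)^2*v*(1-v) +
      (16969/200000000)*(1-w)^2*v^2 +
      (231/100)*w*(1-w)*(1-v)^2 +
      (2909239/1250000)*w*(1-w)*v*(1-v) +
      (10801969/100000000)*w*(1-w)*v^2 +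
      (7421/9000)*w^2*(1-v)^2 +
      (2161489/2500000)*w^2*v*(1-v) +
      (39760907/600000000)*w^2*v^2 := by
    positivity
  have e : co1 (w / 3) ((3957 / 5000 - w / 3) * v / 2) - (3/250) =
      (1541/1000)*(1-w)^2*(1-v)^2 +
      (3656989/2500000)*(1-w)^2*v*(1-v) +
      (16969/200000000)*(1-w)^2*v^2 +
      (231/100)*w*(1-w)*(1-v)^2 +
      (2909239/1250000)*w*(1-w)*v*(1-v) +
      (10801969/100000000)*w*(1-w)*v^2 +
      (7421/9000)*w^2*(1-v)^2 +
      (2161489/2500000)*w^2*v*(1-v) +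
      (39760907/600000000)*w^2*v^2 := by
    unfold co1
    ring
  linarith

/-- the coefficient of `Y ^ 3` -/
noncomputable def co2 (η s : ℝ) : ℝ :=
  (1417/500) + (-7631/1000)*s + (301/250)*s^2 + (1/3)*s^3 + (-667/125)*η + (861/125)*η*s + (3/4)*η*s^2 + (477/250)*η^2 + (-1/12)*η^2*s

theorem co2_ge {w v : ℝ} (hw : 0 ≤ w) (hw1 : 0 ≤ 1 - w) (hv : 0 ≤ v) (hv1 : 0 ≤ 1 - v) :
    (23/1000) ≤ co2 (w / 3) ((3957 / 5000 - w / 3) * v / 2) := by
  have h : 0 ≤
      (2811/1000)*(1-w)^3*(1-v)^3 +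
      (54134133/10000000)*(1-w)^3*v*(1-v)^2 +
      (64558677549/25000000000)*(1-w)^3*v^2*(1-v) +
      (586504791/1000000000000)*(1-w)^3*v^3 +
      (19963/3000)*w*(1-w)^2*(1-v)^3 +
      (392538013/30000000)*w*(1-w)^2*v*(1-v)^2 +
      (997814909257/150000000000)*w*(1-w)^2*v^2*(1-v) +
      (773081965619/3000000000000)*w*(1-w)^2*v^3 +
      (15263/3000)*w^2*(1-w)*(1-v)^3 +
      (916076737/90000000)*w^2*(1-w)*v*(1-v)^2 +
      (101643109079/18750000000)*w^2*(1-w)*v^2*(1-v) +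
      (3156831164357/9000000000000)*w^2*(1-w)*v^3 +
      (3733/3000)*w^3*(1-v)^3 +
      (406455811/162000000)*w^3*v*(1-v)^2 +
      (5513039774063/4050000000000)*w^3*v^2*(1-v) +
      (301787936873/3000000000000)*w^3*v^3 := by
    positivity
  have e : co2 (w / 3) ((3957 / 5000 - w / 3) * v / 2) - (23/1000) =
      (2811/1000)*(1-w)^3*(1-v)^3 +
      (54134133/10000000)*(1-w)^3*v*(1-v)^2 +
      (64558677549/25000000000)*(1-w)^3*v^2*(1-v) +
      (586504791/1000000000000)*(1-w)^3*v^3 +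
      (19963/3000)*w*(1-w)^2*(1-v)^3 +
      (392538013/30000000)*w*(1-w)^2*v*(1-v)^2 +
      (997814909257/150000000000)*w*(1-w)^2*v^2*(1-v) +
      (773081965619/3000000000000)*w*(1-w)^2*v^3 +
      (15263/3000)*w^2*(1-w)*(1-v)^3 +
      (916076737/90000000)*w^2*(1-w)*v*(1-v)^2 +
      (101643109079/18750000000)*w^2*(1-w)*v^2*(1-v) +
      (3156831164357/9000000000000)*w^2*(1-w)*v^3 +
      (3733/3000)*w^3*(1-v)^3 +
      (406455811/162000000)*w^3*v*(1-v)^2 +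
      (5513039774063/4050000000000)*w^3*v^2*(1-v) +
      (301787936873/3000000000000)*w^3*v^3 := by
    unfold co2
    ring
  linarith

/-- the coefficient of `Y ^ 4` -/
noncomputable def co3 (η s : ℝ) : ℝ :=
  (149931/50000) + (-8451/1000)*s + (3421/2000)*s^2 + (338/375)*s^3 + (1/6)*s^4 + (-14363/2000)*η + (4597/400)*η*s + (287/125)*η*s^2 + (3/4)*η*s^3 + (3783/1000)*η^2 + (-74/375)*η^2*s + (5/6)*η^2*s^2 + (1/4)*η^3*s

theorem co3_ge {w v : ℝ} (hw : 0 ≤ w) (hw1 : 0 ≤ 1 - w) (hv : 0 ≤ v) (hv1 : 0 ≤ 1 - v) :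
    (-9/500) ≤ co3 (w / 3) ((3957 / 5000 - w / 3) * v / 2) := by
  have h : 0 ≤
      (150831/50000)*(1-w)^4*(1-v)^4 +
      (87224193/10000000)*(1-w)^4*v*(1-v)^3 +
      (1667073081429/200000000000)*(1-w)^4*v^2*(1-v)^2 +
      (41028090980391/15625000000000)*(1-w)^4*v^3*(1-v) +
      (6357057102747/20000000000000000)*(1-w)^4*v^4 +
      (1450897/150000)*w*(1-w)^3*(1-v)^4 +
      (1694322277/60000000)*w*(1-w)^3*v*(1-v)^3 +
      (1382288183313/50000000000)*w*(1-w)^3*v^2*(1-v)^2 +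
      (14151456905955019/1500000000000000)*w*(1-w)^3*v^3*(1-v) +
      (5460888036801991/15000000000000000)*w*(1-w)^3*v^4 +
      (1700783/150000)*w^2*(1-w)^2*(1-v)^4 +
      (6014840953/180000000)*w^2*(1-w)^2*v*(1-v)^3 +
      (30120046247819/900000000000)*w^2*(1-w)^2*v^2*(1-v)^2 +
      (54991319813854523/4500000000000000)*w^2*(1-w)^2*v^3*(1-v) +
      (75511665083161669/90000000000000000)*w^2*(1-w)^2*v^4 +
      (858847/150000)*w^3*(1-w)*(1-v)^4 +
      (27560165281/1620000000)*w^3*(1-w)*v*(1-v)^3 +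
      (23447620343687/1350000000000)*w^3*(1-w)*v^2*(1-v)^2 +
      (270741778926718763/40500000000000000)*w^3*(1-w)*v^3*(1-v) +
      (81856565047605419/135000000000000000)*w^3*(1-w)*v^4 +
      (13039/12500)*w^4*(1-v)^4 +
      (560053213/180000000)*w^4*v*(1-v)^3 +
      (31203438076699/9720000000000)*w^4*v^2*(1-v)^2 +
      (154615150724920291/121500000000000000)*w^4*v^3*(1-v) +
      (70776598474549169/540000000000000000)*w^4*v^4 := by
    positivity
  have e : co3 (w / 3) ((3957 / 5000 - w / 3) * v / 2) - (-9/500) =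
      (150831/50000)*(1-w)^4*(1-v)^4 +
      (87224193/10000000)*(1-w)^4*v*(1-v)^3 +
      (1667073081429/200000000000)*(1-w)^4*v^2*(1-v)^2 +
      (41028090980391/15625000000000)*(1-w)^4*v^3*(1-v) +
      (6357057102747/20000000000000000)*(1-w)^4*v^4 +
      (1450897/150000)*w*(1-w)^3*(1-v)^4 +
      (1694322277/60000000)*w*(1-w)^3*v*(1-v)^3 +
      (1382288183313/50000000000)*w*(1-w)^3*v^2*(1-v)^2 +
      (14151456905955019/1500000000000000)*w*(1-w)^3*v^3*(1-v) +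
      (5460888036801991/15000000000000000)*w*(1-w)^3*v^4 +
      (1700783/150000)*w^2*(1-w)^2*(1-v)^4 +
      (6014840953/180000000)*w^2*(1-w)^2*v*(1-v)^3 +
      (30120046247819/900000000000)*w^2*(1-w)^2*v^2*(1-v)^2 +
      (54991319813854523/4500000000000000)*w^2*(1-w)^2*v^3*(1-v) +
      (75511665083161669/90000000000000000)*w^2*(1-w)^2*v^4 +
      (858847/150000)*w^3*(1-w)*(1-v)^4 +
      (27560165281/1620000000)*w^3*(1-w)*v*(1-v)^3 +
      (23447620343687/1350000000000)*w^3*(1-w)*v^2*(1-v)^2 +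
      (270741778926718763/40500000000000000)*w^3*(1-w)*v^3*(1-v) +
      (81856565047605419/135000000000000000)*w^3*(1-w)*v^4 +
      (13039/12500)*w^4*(1-v)^4 +
      (560053213/180000000)*w^4*v*(1-v)^3 +
      (31203438076699/9720000000000)*w^4*v^2*(1-v)^2 +
      (154615150724920291/121500000000000000)*w^4*v^3*(1-v) +
      (70776598474549169/540000000000000000)*w^4*v^4 := by
    unfold co3
    ring
  linarith

/-- the coefficient of `Y ^ 5` -/
noncomputable def co4 (η s : ℝ) : ℝ :=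
  (448807/200000) + (-2977/500)*s + (1263/1000)*s^2 + (8197/6000)*s^3 + (1/2)*s^4 + (-158731/25000)*η + (2301/200)*η*s + (6927/2000)*η*s^2 + (591/250)*η*s^3 + (1739/400)*η^2 + (-161/3000)*η^2*s + (699/250)*η^2*s^2 + (-1/12)*η^2*s^3 + (233/250)*η^3*s + (-1/4)*η^3*s^2 + (-1/6)*η^4*s

theorem co4_ge {w v : ℝ} (hw : 0 ≤ w) (hw1 : 0 ≤ 1 - w) (hv : 0 ≤ v) (hv1 : 0 ≤ 1 - v) :
    (9/50) ≤ co4 (w / 3) ((3957 / 5000 - w / 3) * v / 2) := by
  have h : 0 ≤
      (412807/200000)*(1-w)^5*(1-v)^4 +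
      (29500711/5000000)*(1-w)^5*v*(1-v)^3 +
      (551397523287/100000000000)*(1-w)^5*v^2*(1-v)^2 +
      (3336617936585707/2000000000000000)*(1-w)^5*v^3*(1-v) +
      (53986943763871/20000000000000000)*(1-w)^5*v^4 +
      (4922257/600000)*w*(1-w)^4*(1-v)^4 +
      (47089801/2000000)*w*(1-w)^4*v*(1-v)^3 +
      (4483020966211/200000000000)*w*(1-w)^4*v^2*(1-v)^2 +
      (44253883044935509/6000000000000000)*w*(1-w)^4*v^3*(1-v) +
      (1369282129719807/4000000000000000)*w*(1-w)^4*v^4 +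
      (11391977/900000)*w^2*(1-w)^3*(1-v)^4 +
      (3282198841/90000000)*w^2*(1-w)^3*v*(1-v)^3 +
      (2656940264731/75000000000)*w^2*(1-w)^3*v^2*(1-v)^2 +
      (114055410050588489/9000000000000000)*w^2*(1-w)^3*v^3*(1-v) +
      (19999772014666187/18000000000000000)*w^2*(1-w)^3*v^4 +
      (2817311/300000)*w^3*(1-w)^2*(1-v)^4 +
      (21994172869/810000000)*w^3*(1-w)^2*v*(1-v)^3 +
      (72792904653097/2700000000000)*w^3*(1-w)^2*v^2*(1-v)^2 +
      (849795692442074309/81000000000000000)*w^3*(1-w)^2*v^3*(1-v) +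
      (71678606083815833/54000000000000000)*w^3*(1-w)^2*v^4 +
      (1982213/600000)*w^4*(1-w)*(1-v)^4 +
      (2584519747/270000000)*w^4*(1-w)*v*(1-v)^3 +
      (5250825949379/540000000000)*w^4*(1-w)*v^2*(1-v)^2 +
      (667639269072342467/162000000000000000)*w^4*(1-w)*v^3*(1-v) +
      (14622535119877321/21600000000000000)*w^4*(1-w)*v^4 +
      (775219/1800000)*w^5*(1-v)^4 +
      (4532397731/3645000000)*w^5*v*(1-v)^3 +
      (20880648254087/16200000000000)*w^5*v^2*(1-v)^2 +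
      (34756831269629263/58320000000000000)*w^5*v^3*(1-v) +
      (589000338113897893/4860000000000000000)*w^5*v^4 := by
    positivity
  have e : co4 (w / 3) ((3957 / 5000 - w / 3) * v / 2) - (9/50) =
      (412807/200000)*(1-w)^5*(1-v)^4 +
      (29500711/5000000)*(1-w)^5*v*(1-v)^3 +
      (551397523287/100000000000)*(1-w)^5*v^2*(1-v)^2 +
      (3336617936585707/2000000000000000)*(1-w)^5*v^3*(1-v) +
      (53986943763871/20000000000000000)*(1-w)^5*v^4 +
      (4922257/600000)*w*(1-w)^4*(1-v)^4 +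
      (47089801/2000000)*w*(1-w)^4*v*(1-v)^3 +
      (4483020966211/200000000000)*w*(1-w)^4*v^2*(1-v)^2 +
      (44253883044935509/6000000000000000)*w*(1-w)^4*v^3*(1-v) +
      (1369282129719807/4000000000000000)*w*(1-w)^4*v^4 +
      (11391977/900000)*w^2*(1-w)^3*(1-v)^4 +
      (3282198841/90000000)*w^2*(1-w)^3*v*(1-v)^3 +
      (2656940264731/75000000000)*w^2*(1-w)^3*v^2*(1-v)^2 +
      (114055410050588489/9000000000000000)*w^2*(1-w)^3*v^3*(1-v) +
      (19999772014666187/18000000000000000)*w^2*(1-w)^3*v^4 +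
      (2817311/300000)*w^3*(1-w)^2*(1-v)^4 +
      (21994172869/810000000)*w^3*(1-w)^2*v*(1-v)^3 +
      (72792904653097/2700000000000)*w^3*(1-w)^2*v^2*(1-v)^2 +
      (849795692442074309/81000000000000000)*w^3*(1-w)^2*v^3*(1-v) +
      (71678606083815833/54000000000000000)*w^3*(1-w)^2*v^4 +
      (1982213/600000)*w^4*(1-w)*(1-v)^4 +
      (2584519747/270000000)*w^4*(1-w)*v*(1-v)^3 +
      (5250825949379/540000000000)*w^4*(1-w)*v^2*(1-v)^2 +
      (667639269072342467/162000000000000000)*w^4*(1-w)*v^3*(1-v) +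
      (14622535119877321/21600000000000000)*w^4*(1-w)*v^4 +
      (775219/1800000)*w^5*(1-v)^4 +
      (4532397731/3645000000)*w^5*v*(1-v)^3 +
      (20880648254087/16200000000000)*w^5*v^2*(1-v)^2 +
      (34756831269629263/58320000000000000)*w^5*v^3*(1-v) +
      (589000338113897893/4860000000000000000)*w^5*v^4 := by
    unfold co4
    ring
  linarith

/-- the coefficient of `Y ^ 6` -/
noncomputable def co5 (η s : ℝ) : ℝ :=
  (107433/100000) + (-15971/6250)*s + (37/50)*s^2 + (569/500)*s^3 + (199/250)*s^4 + (-402477/100000)*η + (7479/1000)*η*s + (3039/1000)*η*s^2 + (2261/600)*η*s^3 + (167531/50000)*η^2 + (1/8)*η^2*s + (1863/400)*η^2*s^2 + (-199/750)*η^2*s^3 + (10111/6000)*η^3*s + (-199/250)*η^3*s^2 + (-199/375)*η^4*s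

theorem co5_ge {w v : ℝ} (hw : 0 ≤ w) (hw1 : 0 ≤ 1 - w) (hv : 0 ≤ v) (hv1 : 0 ≤ 1 - v) :
    (1/10) ≤ co5 (w / 3) ((3957 / 5000 - w / 3) * v / 2) := by
  have h : 0 ≤
      (97433/100000)*(1-w)^5*(1-v)^4 +
      (180385253/62500000)*(1-w)^5*v*(1-v)^3 +
      (14641901133/5000000000)*(1-w)^5*v^2*(1-v)^2 +
      (583048318332517/500000000000000)*(1-w)^5*v^3*(1-v) +
      (422664623988638399/2500000000000000000)*(1-w)^5*v^4 +
      (176503/50000)*w*(1-w)^4*(1-v)^4 +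
      (1571525051/150000000)*w*(1-w)^4*v*(1-v)^3 +
      (1089048944337/100000000000)*w*(1-w)^4*v^2*(1-v)^2 +
      (962398522351331/200000000000000)*w*(1-w)^4*v^3*(1-v) +
      (1399462044697714697/1500000000000000000)*w*(1-w)^4*v^4 +
      (1068577/225000)*w^2*(1-w)^3*(1-v)^4 +
      (6356184521/450000000)*w^2*(1-w)^3*v*(1-v)^3 +
      (27449747816899/1800000000000)*w^2*(1-w)^3*v^2*(1-v)^2 +
      (17368774685389511/2250000000000000)*w^2*(1-w)^3*v^3*(1-v) +
      (1447221860600891197/750000000000000000)*w^2*(1-w)^3*v^4 +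
      (84319/30000)*w^3*(1-w)^2*(1-v)^4 +
      (7557825737/900000000)*w^3*(1-w)^2*v*(1-v)^3 +
      (3496628336513/360000000000)*w^3*(1-w)^2*v^2*(1-v)^2 +
      (80507417863471733/13500000000000000)*w^3*(1-w)^2*v^3*(1-v) +
      (12770806873574002273/6750000000000000000)*w^3*(1-w)^2*v^4 +
      (186649/300000)*w^4*(1-w)*(1-v)^4 +
      (11446057043/6075000000)*w^4*(1-w)*v*(1-v)^3 +
      (41722606365673/16200000000000)*w^4*(1-w)*v^2*(1-v)^2 +
      (264493546099116587/121500000000000000)*w^4*(1-w)*v^3*(1-v) +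
      (11889727133272376773/13500000000000000000)*w^4*(1-w)*v^4 +
      (283/56250)*w^5*(1-v)^4 +
      (7952382671/364500000000)*w^5*v*(1-v)^3 +
      (165046150867/1080000000000)*w^5*v^2*(1-v)^2 +
      (42095808838327159/145800000000000000)*w^5*v^3*(1-v) +
      (94088934988983298457/607500000000000000000)*w^5*v^4 := by
    positivity
  have e : co5 (w / 3) ((3957 / 5000 - w / 3) * v / 2) - (1/10) =
      (97433/100000)*(1-w)^5*(1-v)^4 +
      (180385253/62500000)*(1-w)^5*v*(1-v)^3 +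
      (14641901133/5000000000)*(1-w)^5*v^2*(1-v)^2 +
      (583048318332517/500000000000000)*(1-w)^5*v^3*(1-v) +
      (422664623988638399/2500000000000000000)*(1-w)^5*v^4 +
      (176503/50000)*w*(1-w)^4*(1-v)^4 +
      (1571525051/150000000)*w*(1-w)^4*v*(1-v)^3 +
      (1089048944337/100000000000)*w*(1-w)^4*v^2*(1-v)^2 +
      (962398522351331/200000000000000)*w*(1-w)^4*v^3*(1-v) +
      (1399462044697714697/1500000000000000000)*w*(1-w)^4*v^4 +
      (1068577/225000)*w^2*(1-w)^3*(1-v)^4 +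
      (6356184521/450000000)*w^2*(1-w)^3*v*(1-v)^3 +
      (27449747816899/1800000000000)*w^2*(1-w)^3*v^2*(1-v)^2 +
      (17368774685389511/2250000000000000)*w^2*(1-w)^3*v^3*(1-v) +
      (1447221860600891197/750000000000000000)*w^2*(1-w)^3*v^4 +
      (84319/30000)*w^3*(1-w)^2*(1-v)^4 +
      (7557825737/900000000)*w^3*(1-w)^2*v*(1-v)^3 +
      (3496628336513/360000000000)*w^3*(1-w)^2*v^2*(1-v)^2 +
      (80507417863471733/13500000000000000)*w^3*(1-w)^2*v^3*(1-v) +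
      (12770806873574002273/6750000000000000000)*w^3*(1-w)^2*v^4 +
      (186649/300000)*w^4*(1-w)*(1-v)^4 +
      (11446057043/6075000000)*w^4*(1-w)*v*(1-v)^3 +
      (41722606365673/16200000000000)*w^4*(1-w)*v^2*(1-v)^2 +
      (264493546099116587/121500000000000000)*w^4*(1-w)*v^3*(1-v) +
      (11889727133272376773/13500000000000000000)*w^4*(1-w)*v^4 +
      (283/56250)*w^5*(1-v)^4 +
      (7952382671/364500000000)*w^5*v*(1-v)^3 +
      (165046150867/1080000000000)*w^5*v^2*(1-v)^2 +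
      (42095808838327159/145800000000000000)*w^5*v^3*(1-v) +
      (94088934988983298457/607500000000000000000)*w^5*v^4 := by
    unfold co5
    ring
  linarith

/-- the coefficient of `Y ^ 7` -/
noncomputable def co6 (η s : ℝ) : ℝ :=
  (5957/25000) + (-54597/100000)*s + (481/2000)*s^2 + (259/375)*s^3 + (717/1000)*s^4 + (-156569/100000)*η + (5957/2000)*η*s + (851/500)*η*s^2 + (173/50)*η*s^3 + (356147/200000)*η^2 + (407/1500)*η^2*s + (4473/1000)*η^2*s^2 + (-717/2000)*η^2*s^3 + (173/100)*η^3*s + (-2151/2000)*η^3*s^2 + (-717/1000)*η^4*s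

theorem co6_ge {w v : ℝ} (hw : 0 ≤ w) (hw1 : 0 ≤ 1 - w) (hv : 0 ≤ v) (hv1 : 0 ≤ 1 - v) :
    (-9/100) ≤ co6 (w / 3) ((3957 / 5000 - w / 3) * v / 2) := by
  have h : 0 ≤
      (8207/25000)*(1-w)^5*(1-v)^4 +
      (1097079671/1000000000)*(1-w)^5*v*(1-v)^3 +
      (271843227969/200000000000)*(1-w)^5*v^2*(1-v)^2 +
      (97888208369479/125000000000000)*(1-w)^5*v^3*(1-v) +
      (2102677605823296317/10000000000000000000)*(1-w)^5*v^4 +
      (335851/300000)*w*(1-w)^4*(1-v)^4 +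
      (2329002503/600000000)*w*(1-w)^4*v*(1-v)^3 +
      (1034677679177/200000000000)*w*(1-w)^4*v^2*(1-v)^2 +
      (511668928702163/150000000000000)*w*(1-w)^4*v^3*(1-v) +
      (6349092821763524951/6000000000000000000)*w*(1-w)^4*v^4 +
      (2507531/1800000)*w^2*(1-w)^3*(1-v)^4 +
      (4674403639/900000000)*w^2*(1-w)^3*v*(1-v)^3 +
      (3526915432579/450000000000)*w^2*(1-w)^3*v^2*(1-v)^2 +
      (109684958578078999/18000000000000000)*w^2*(1-w)^3*v^3*(1-v) +
      (2132760853882415817/1000000000000000000)*w^2*(1-w)^3*v^4 +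
      (446999/600000)*w^3*(1-w)^2*(1-v)^4 +
      (26587817161/8100000000)*w^3*(1-w)^2*v*(1-v)^3 +
      (32775606444601/5400000000000)*w^3*(1-w)^2*v^2*(1-v)^2 +
      (912384356392609573/162000000000000000)*w^3*(1-w)^2*v^3*(1-v) +
      (58019296201092008059/27000000000000000000)*w^3*(1-w)^2*v^4 +
      (17687/120000)*w^4*(1-w)*(1-v)^4 +
      (16372545731/16200000000)*w^4*(1-w)*v*(1-v)^3 +
      (4500596400553/1800000000000)*w^4*(1-w)*v^2*(1-v)^2 +
      (437574225261206413/162000000000000000)*w^4*(1-w)*v^3*(1-v) +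
      (58298990776674567559/54000000000000000000)*w^4*(1-w)*v^4 +
      (7637/1800000)*w^5*(1-v)^4 +
      (11248500001/81000000000)*w^5*v*(1-v)^3 +
      (247056276539/540000000000)*w^5*v^2*(1-v)^2 +
      (3480141844792663/6480000000000000)*w^5*v^3*(1-v) +
      (19453305266191801853/90000000000000000000)*w^5*v^4 := by
    positivity
  have e : co6 (w / 3) ((3957 / 5000 - w / 3) * v / 2) - (-9/100) =
      (8207/25000)*(1-w)^5*(1-v)^4 +
      (1097079671/1000000000)*(1-w)^5*v*(1-v)^3 +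
      (271843227969/200000000000)*(1-w)^5*v^2*(1-v)^2 +
      (97888208369479/125000000000000)*(1-w)^5*v^3*(1-v) +
      (2102677605823296317/10000000000000000000)*(1-w)^5*v^4 +
      (335851/300000)*w*(1-w)^4*(1-v)^4 +
      (2329002503/600000000)*w*(1-w)^4*v*(1-v)^3 +
      (1034677679177/200000000000)*w*(1-w)^4*v^2*(1-v)^2 +
      (511668928702163/150000000000000)*w*(1-w)^4*v^3*(1-v) +
      (6349092821763524951/6000000000000000000)*w*(1-w)^4*v^4 +
      (2507531/1800000)*w^2*(1-w)^3*(1-v)^4 +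
      (4674403639/900000000)*w^2*(1-w)^3*v*(1-v)^3 +
      (3526915432579/450000000000)*w^2*(1-w)^3*v^2*(1-v)^2 +
      (109684958578078999/18000000000000000)*w^2*(1-w)^3*v^3*(1-v) +
      (2132760853882415817/1000000000000000000)*w^2*(1-w)^3*v^4 +
      (446999/600000)*w^3*(1-w)^2*(1-v)^4 +
      (26587817161/8100000000)*w^3*(1-w)^2*v*(1-v)^3 +
      (32775606444601/5400000000000)*w^3*(1-w)^2*v^2*(1-v)^2 +
      (912384356392609573/162000000000000000)*w^3*(1-w)^2*v^3*(1-v) +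
      (58019296201092008059/27000000000000000000)*w^3*(1-w)^2*v^4 +
      (17687/120000)*w^4*(1-w)*(1-v)^4 +
      (16372545731/16200000000)*w^4*(1-w)*v*(1-v)^3 +
      (4500596400553/1800000000000)*w^4*(1-w)*v^2*(1-v)^2 +
      (437574225261206413/162000000000000000)*w^4*(1-w)*v^3*(1-v) +
      (58298990776674567559/54000000000000000000)*w^4*(1-w)*v^4 +
      (7637/1800000)*w^5*(1-v)^4 +
      (11248500001/81000000000)*w^5*v*(1-v)^3 +
      (247056276539/540000000000)*w^5*v^2*(1-v)^2 +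
      (3480141844792663/6480000000000000)*w^5*v^3*(1-v) +
      (19453305266191801853/90000000000000000000)*w^5*v^4 := by
    unfold co6
    ring
  linarith

/-- the coefficient of `Y ^ 8` -/
noncomputable def co7 (η s : ℝ) : ℝ :=
  (333/40000) + (-777/50000)*s + (111/4000)*s^2 + (1369/6000)*s^3 + (111/250)*s^4 + (-7067/25000)*η + (2553/4000)*η*s + (999/2000)*η*s^2 + (629/300)*η*s^3 + (3071/6250)*η^2 + (481/3000)*η^2*s + (703/250)*η^2*s^2 + (-37/125)*η^2*s^3 + (1739/1500)*η^3*s + (-111/125)*η^3*s^2 + (-74/125)*η^4*s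

theorem co7_ge {w v : ℝ} (hw : 0 ≤ w) (hw1 : 0 ≤ 1 - w) (hv : 0 ≤ v) (hv1 : 0 ≤ 1 - v) :
    (-7/200) ≤ co7 (w / 3) ((3957 / 5000 - w / 3) * v / 2) := by
  have h : 0 ≤
      (1733/40000)*(1-w)^5*(1-v)^4 +
      (83575411/500000000)*(1-w)^5*v*(1-v)^3 +
      (98339007639/400000000000)*(1-w)^5*v^2*(1-v)^2 +
      (355358694565639/2000000000000000)*(1-w)^5*v^3*(1-v) +
      (166357799582353661/2500000000000000000)*(1-w)^5*v^4 +
      (73439/600000)*w*(1-w)^4*(1-v)^4 +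
      (327373571/600000000)*w*(1-w)^4*v*(1-v)^3 +
      (378645285629/400000000000)*w*(1-w)^4*v^2*(1-v)^2 +
      (1010489543342713/1200000000000000)*w*(1-w)^4*v^3*(1-v) +
      (532160157755913983/1500000000000000000)*w*(1-w)^4*v^4 +
      (19969/180000)*w^2*(1-w)^3*(1-v)^4 +
      (315429959/450000000)*w^2*(1-w)^3*v*(1-v)^3 +
      (958833316781/600000000000)*w^2*(1-w)^3*v^2*(1-v)^2 +
      (15578045083923707/9000000000000000)*w^2*(1-w)^3*v^3*(1-v) +
      (1732360612683318949/2250000000000000000)*w^2*(1-w)^3*v^4 +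
      (9503/300000)*w^3*(1-w)^2*(1-v)^4 +
      (4168749577/8100000000)*w^3*(1-w)^2*v*(1-v)^3 +
      (8495771348579/5400000000000)*w^3*(1-w)^2*v^2*(1-v)^2 +
      (153914921515185119/81000000000000000)*w^3*(1-w)^2*v^3*(1-v) +
      (210050246984212661/250000000000000000)*w^3*(1-w)^2*v^4 +
      (701/200000)*w^4*(1-w)*(1-v)^4 +
      (6394361413/24300000000)*w^4*(1-w)*v*(1-v)^3 +
      (28917080674427/32400000000000)*w^4*(1-w)*v^2*(1-v)^2 +
      (524470428504524569/486000000000000000)*w^4*(1-w)*v^3*(1-v) +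
      (683935670720508983/1500000000000000000)*w^4*(1-w)*v^4 +
      (6649/1800000)*w^5*(1-v)^4 +
      (1948962019/27000000000)*w^5*v*(1-v)^3 +
      (7103443171937/32400000000000)*w^5*v^2*(1-v)^2 +
      (2672471814909901/10800000000000000)*w^5*v^3*(1-v) +
      (19828931100677421541/202500000000000000000)*w^5*v^4 := by
    positivity
  have e : co7 (w / 3) ((3957 / 5000 - w / 3) * v / 2) - (-7/200) =
      (1733/40000)*(1-w)^5*(1-v)^4 +
      (83575411/500000000)*(1-w)^5*v*(1-v)^3 +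
      (98339007639/400000000000)*(1-w)^5*v^2*(1-v)^2 +
      (355358694565639/2000000000000000)*(1-w)^5*v^3*(1-v) +
      (166357799582353661/2500000000000000000)*(1-w)^5*v^4 +
      (73439/600000)*w*(1-w)^4*(1-v)^4 +
      (327373571/600000000)*w*(1-w)^4*v*(1-v)^3 +
      (378645285629/400000000000)*w*(1-w)^4*v^2*(1-v)^2 +
      (1010489543342713/1200000000000000)*w*(1-w)^4*v^3*(1-v) +
      (532160157755913983/1500000000000000000)*w*(1-w)^4*v^4 +
      (19969/180000)*w^2*(1-w)^3*(1-v)^4 +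
      (315429959/450000000)*w^2*(1-w)^3*v*(1-v)^3 +
      (958833316781/600000000000)*w^2*(1-w)^3*v^2*(1-v)^2 +
      (15578045083923707/9000000000000000)*w^2*(1-w)^3*v^3*(1-v) +
      (1732360612683318949/2250000000000000000)*w^2*(1-w)^3*v^4 +
      (9503/300000)*w^3*(1-w)^2*(1-v)^4 +
      (4168749577/8100000000)*w^3*(1-w)^2*v*(1-v)^3 +
      (8495771348579/5400000000000)*w^3*(1-w)^2*v^2*(1-v)^2 +
      (153914921515185119/81000000000000000)*w^3*(1-w)^2*v^3*(1-v) +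
      (210050246984212661/250000000000000000)*w^3*(1-w)^2*v^4 +
      (701/200000)*w^4*(1-w)*(1-v)^4 +
      (6394361413/24300000000)*w^4*(1-w)*v*(1-v)^3 +
      (28917080674427/32400000000000)*w^4*(1-w)*v^2*(1-v)^2 +
      (524470428504524569/486000000000000000)*w^4*(1-w)*v^3*(1-v) +
      (683935670720508983/1500000000000000000)*w^4*(1-w)*v^4 +
      (6649/1800000)*w^5*(1-v)^4 +
      (1948962019/27000000000)*w^5*v*(1-v)^3 +
      (7103443171937/32400000000000)*w^5*v^2*(1-v)^2 +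
      (2672471814909901/10800000000000000)*w^5*v^3*(1-v) +
      (19828931100677421541/202500000000000000000)*w^5*v^4 := by
    unfold co7
    ring
  linarith

/-- the coefficient of `Y ^ 9` -/
noncomputable def co8 (η s : ℝ) : ℝ :=
  (-999/400000) + (333/25000)*s + (111/4000)*s^3 + (37/250)*s^4 + (-333/50000)*η + (111/2000)*η*s + (111/2000)*η*s^2 + (407/600)*η*s^3 + (111/2500)*η^2 + (111/4000)*η^2*s + (1887/2000)*η^2*s^2 + (-37/300)*η^2*s^3 + (2479/6000)*η^3*s + (-37/100)*η^3*s^2 + (-37/150)*η^4*s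

theorem co8_ge {w v : ℝ} (hw : 0 ≤ w) (hw1 : 0 ≤ 1 - w) (hv : 0 ≤ v) (hv1 : 0 ≤ 1 - v) :
    (-3/1000) ≤ co8 (w / 3) ((3957 / 5000 - w / 3) * v / 2) := by
  have h : 0 ≤
      (201/400000)*(1-w)^5*(1-v)^4 +
      (1820181/250000000)*(1-w)^5*v*(1-v)^3 +
      (4706793/250000000)*(1-w)^5*v^2*(1-v)^2 +
      (78166038042723/4000000000000000)*(1-w)^5*v^3*(1-v) +
      (3475328560381689/312500000000000000)*(1-w)^5*v^4 +
      (117/400000)*w*(1-w)^4*(1-v)^4 +
      (3262407/100000000)*w*(1-w)^4*v*(1-v)^3 +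
      (19802782413/200000000000)*w*(1-w)^4*v^2*(1-v)^2 +
      (97407353510679/800000000000000)*w*(1-w)^4*v^3*(1-v) +
      (8388262399759503/125000000000000000)*w*(1-w)^4*v^4 +
      (647/600000)*w^2*(1-w)^3*(1-v)^4 +
      (15111823/200000000)*w^2*(1-w)^3*v*(1-v)^3 +
      (49153729659/200000000000)*w^2*(1-w)^3*v^2*(1-v)^2 +
      (379293784036909/1200000000000000)*w^2*(1-w)^3*v^3*(1-v) +
      (10030290926828753/62500000000000000)*w^2*(1-w)^3*v^4 +
      (1301/200000)*w^3*(1-w)^2*(1-v)^4 +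
      (590119901/5400000000)*w^3*(1-w)^2*v*(1-v)^3 +
      (199595252357/600000000000)*w^3*(1-w)^2*v^2*(1-v)^2 +
      (293184019133671/720000000000000)*w^3*(1-w)^2*v^3*(1-v) +
      (9883778811721733/52734375000000000)*w^3*(1-w)^2*v^4 +
      (3373/400000)*w^4*(1-w)*(1-v)^4 +
      (3996028927/48600000000)*w^4*(1-w)*v*(1-v)^3 +
      (3618831089953/16200000000000)*w^4*(1-w)*v^2*(1-v)^2 +
      (9804329251648573/38880000000000000)*w^4*(1-w)*v^3*(1-v) +
      (89265608979384739/843750000000000000)*w^4*(1-w)*v^4 +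
      (3859/1200000)*w^5*(1-v)^4 +
      (17251542871/729000000000)*w^5*v*(1-v)^3 +
      (7755718247/135000000000)*w^5*v^2*(1-v)^2 +
      (173951549778684407/2916000000000000000)*w^5*v^3*(1-v) +
      (3502310705362236479/151875000000000000000)*w^5*v^4 := by
    positivity
  have e : co8 (w / 3) ((3957 / 5000 - w / 3) * v / 2) - (-3/1000) =
      (201/400000)*(1-w)^5*(1-v)^4 +
      (1820181/250000000)*(1-w)^5*v*(1-v)^3 +
      (4706793/250000000)*(1-w)^5*v^2*(1-v)^2 +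
      (78166038042723/4000000000000000)*(1-w)^5*v^3*(1-v) +
      (3475328560381689/312500000000000000)*(1-w)^5*v^4 +
      (117/400000)*w*(1-w)^4*(1-v)^4 +
      (3262407/100000000)*w*(1-w)^4*v*(1-v)^3 +
      (19802782413/200000000000)*w*(1-w)^4*v^2*(1-v)^2 +
      (97407353510679/800000000000000)*w*(1-w)^4*v^3*(1-v) +
      (8388262399759503/125000000000000000)*w*(1-w)^4*v^4 +
      (647/600000)*w^2*(1-w)^3*(1-v)^4 +
      (15111823/200000000)*w^2*(1-w)^3*v*(1-v)^3 +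
      (49153729659/200000000000)*w^2*(1-w)^3*v^2*(1-v)^2 +
      (379293784036909/1200000000000000)*w^2*(1-w)^3*v^3*(1-v) +
      (10030290926828753/62500000000000000)*w^2*(1-w)^3*v^4 +
      (1301/200000)*w^3*(1-w)^2*(1-v)^4 +
      (590119901/5400000000)*w^3*(1-w)^2*v*(1-v)^3 +
      (199595252357/600000000000)*w^3*(1-w)^2*v^2*(1-v)^2 +
      (293184019133671/720000000000000)*w^3*(1-w)^2*v^3*(1-v) +
      (9883778811721733/52734375000000000)*w^3*(1-w)^2*v^4 +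
      (3373/400000)*w^4*(1-w)*(1-v)^4 +
      (3996028927/48600000000)*w^4*(1-w)*v*(1-v)^3 +
      (3618831089953/16200000000000)*w^4*(1-w)*v^2*(1-v)^2 +
      (9804329251648573/38880000000000000)*w^4*(1-w)*v^3*(1-v) +
      (89265608979384739/843750000000000000)*w^4*(1-w)*v^4 +
      (3859/1200000)*w^5*(1-v)^4 +
      (17251542871/729000000000)*w^5*v*(1-v)^3 +
      (7755718247/135000000000)*w^5*v^2*(1-v)^2 +
      (173951549778684407/2916000000000000000)*w^5*v^3*(1-v) +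
      (3502310705362236479/151875000000000000000)*w^5*v^4 := by
    unfold co8
    ring
  linarith

/-- the coefficient of `Y ^ 10` -/
noncomputable def co9 (η s : ℝ) : ℝ :=
  (333/200000)*s + (37/2000)*s^4 + (999/400000)*η + (333/4000)*η*s^3 + (-333/200000)*η^2 + (481/4000)*η^2*s^2 + (-37/2000)*η^2*s^3 + (111/2000)*η^3*s + (-111/2000)*η^3*s^2 + (-37/1000)*η^4*s

theorem co9_ge {w v : ℝ} (hw : 0 ≤ w) (hw1 : 0 ≤ 1 - w) (hv : 0 ≤ v) (hv1 : 0 ≤ 1 - v) :
    0 ≤ co9 (w / 3) ((3957 / 5000 - w / 3) * v / 2) := by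
  have h : 0 ≤
      (1317681/2000000000)*(1-w)^5*v*(1-v)^3 +
      (3953043/2000000000)*(1-w)^5*v^2*(1-v)^2 +
      (3953043/2000000000)*(1-w)^5*v^3*(1-v) +
      (22248034706351637/20000000000000000000)*(1-w)^5*v^4 +
      (333/400000)*w*(1-w)^4*(1-v)^4 +
      (2538681/400000000)*w*(1-w)^4*v*(1-v)^3 +
      (5618043/400000000)*w*(1-w)^4*v^2*(1-v)^2 +
      (56397780042723/4000000000000000)*w*(1-w)^4*v^3*(1-v) +
      (28288784730086637/4000000000000000000)*w*(1-w)^4*v^4 +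
      (629/200000)*w^2*(1-w)^3*(1-v)^4 +
      (3611681/200000000)*w^2*(1-w)^3*v*(1-v)^3 +
      (14958911041/400000000000)*w^2*(1-w)^3*v^2*(1-v)^2 +
      (75553610729697/2000000000000000)*w^2*(1-w)^3*v^3*(1-v) +
      (34509457548072637/2000000000000000000)*w^2*(1-w)^3*v^4 +
      (111/25000)*w^3*(1-w)^2*(1-v)^4 +
      (14098073/600000000)*w^3*(1-w)^2*v*(1-v)^3 +
      (172952519281/3600000000000)*w^3*(1-w)^2*v^2*(1-v)^2 +
      (430620502426649/9000000000000000)*w^3*(1-w)^2*v^3*(1-v) +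
      (362243588877786733/18000000000000000000)*w^3*(1-w)^2*v^4 +
      (111/40000)*w^4*(1-w)*(1-v)^4 +
      (51795449/3600000000)*w^4*(1-w)*v*(1-v)^3 +
      (189623974619/6480000000000)*w^4*(1-w)*v^2*(1-v)^2 +
      (4600225456964119/162000000000000000)*w^4*(1-w)*v^3*(1-v) +
      (401357635841178733/36000000000000000000)*w^4*(1-w)*v^4 +
      (259/400000)*w^5*(1-v)^4 +
      (1622030383/486000000000)*w^5*v*(1-v)^3 +
      (217746807487/32400000000000)*w^5*v^2*(1-v)^2 +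
      (246006465678307/38880000000000000)*w^5*v^3*(1-v) +
      (3803214223320467597/1620000000000000000000)*w^5*v^4 := by
    positivity
  have e : co9 (w / 3) ((3957 / 5000 - w / 3) * v / 2) - 0 =
      (1317681/2000000000)*(1-w)^5*v*(1-v)^3 +
      (3953043/2000000000)*(1-w)^5*v^2*(1-v)^2 +
      (3953043/2000000000)*(1-w)^5*v^3*(1-v) +
      (22248034706351637/20000000000000000000)*(1-w)^5*v^4 +
      (333/400000)*w*(1-w)^4*(1-v)^4 +
      (2538681/400000000)*w*(1-w)^4*v*(1-v)^3 +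
      (5618043/400000000)*w*(1-w)^4*v^2*(1-v)^2 +
      (56397780042723/4000000000000000)*w*(1-w)^4*v^3*(1-v) +
      (28288784730086637/4000000000000000000)*w*(1-w)^4*v^4 +
      (629/200000)*w^2*(1-w)^3*(1-v)^4 +
      (3611681/200000000)*w^2*(1-w)^3*v*(1-v)^3 +
      (14958911041/400000000000)*w^2*(1-w)^3*v^2*(1-v)^2 +
      (75553610729697/2000000000000000)*w^2*(1-w)^3*v^3*(1-v) +
      (34509457548072637/2000000000000000000)*w^2*(1-w)^3*v^4 +
      (111/25000)*w^3*(1-w)^2*(1-v)^4 +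
      (14098073/600000000)*w^3*(1-w)^2*v*(1-v)^3 +
      (172952519281/3600000000000)*w^3*(1-w)^2*v^2*(1-v)^2 +
      (430620502426649/9000000000000000)*w^3*(1-w)^2*v^3*(1-v) +
      (362243588877786733/18000000000000000000)*w^3*(1-w)^2*v^4 +
      (111/40000)*w^4*(1-w)*(1-v)^4 +
      (51795449/3600000000)*w^4*(1-w)*v*(1-v)^3 +
      (189623974619/6480000000000)*w^4*(1-w)*v^2*(1-v)^2 +
      (4600225456964119/162000000000000000)*w^4*(1-w)*v^3*(1-v) +
      (401357635841178733/36000000000000000000)*w^4*(1-w)*v^4 +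
      (259/400000)*w^5*(1-v)^4 +
      (1622030383/486000000000)*w^5*v*(1-v)^3 +
      (217746807487/32400000000000)*w^5*v^2*(1-v)^2 +
      (246006465678307/38880000000000000)*w^5*v^3*(1-v) +
      (3803214223320467597/1620000000000000000000)*w^5*v^4 := by
    unfold co9
    ring
  linarith

/-- the polynomial inequality -/
theorem pol_nonneg {Y η s : ℝ} (hY0 : 0 ≤ Y) (hY1 : Y ≤ 1) (hη0 : 0 ≤ η) (hη1 : η ≤ 1 / 3)
    (hs0 : 0 ≤ s) (hs1 : 2 * s + η ≤ 3957 / 5000) :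
    0 ≤ co0 η s + co1 η s * Y + co2 η s * Y ^ 2 + co3 η s * Y ^ 3 + co4 η s * Y ^ 4 +
      co5 η s * Y ^ 5 + co6 η s * Y ^ 6 + co7 η s * Y ^ 7 + co8 η s * Y ^ 8 +
      co9 η s * Y ^ 9 := by
  obtain ⟨w, hw⟩ : ∃ w, w = 3 * η := ⟨_, rfl⟩
  have hR : 0 < 3957 / 5000 - η := by linarith
  obtain ⟨v, hv⟩ : ∃ v, v = 2 * s / (3957 / 5000 - η) := ⟨_, rfl⟩
  have e1 : η = w / 3 := by rw [hw]; ring
  have e2 : s = (3957 / 5000 - w / 3) * v / 2 := by
    have : v * (3957 / 5000 - η) = 2 * s := by rw [hv]; exact div_mul_cancel₀ _ hR.ne'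
    rw [← e1]; linarith
  have h1 : 0 ≤ w := by rw [hw]; linarith
  have h2 : 0 ≤ 1 - w := by rw [hw]; linarith
  have h3 : 0 ≤ v := by rw [hv]; positivity
  have h4 : 0 ≤ 1 - v := by
    rw [hv, sub_nonneg, div_le_one hR]; linarith
  have g0 := co0_ge h1 h2 h3 h4
  have g1 := co1_ge h1 h2 h3 h4
  have g2 := co2_ge h1 h2 h3 h4
  have g3 := co3_ge h1 h2 h3 h4
  have g4 := co4_ge h1 h2 h3 h4
  have g5 := co5_ge h1 h2 h3 h4
  have g6 := co6_ge h1 h2 h3 h4
  have g7 := co7_ge h1 h2 h3 h4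
  have g8 := co8_ge h1 h2 h3 h4
  have g9 := co9_ge h1 h2 h3 h4
  rw [← e2, ← e1] at g0 g1 g2 g3 g4 g5 g6 g7 g8 g9
  have f1 := mul_le_mul_of_nonneg_right g1 hY0
  have f2 := mul_le_mul_of_nonneg_right g2 (pow_nonneg hY0 2)
  have f3 := mul_le_mul_of_nonneg_right g3 (pow_nonneg hY0 3)
  have f4 := mul_le_mul_of_nonneg_right g4 (pow_nonneg hY0 4)
  have f5 := mul_le_mul_of_nonneg_right g5 (pow_nonneg hY0 5)
  have f6 := mul_le_mul_of_nonneg_right g6 (pow_nonneg hY0 6)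
  have f7 := mul_le_mul_of_nonneg_right g7 (pow_nonneg hY0 7)
  have f8 := mul_le_mul_of_nonneg_right g8 (pow_nonneg hY0 8)
  have f9 := mul_le_mul_of_nonneg_right g9 (pow_nonneg hY0 9)
  have k1 : Y ^ 3 ≤ Y ^ 2 := pow_le_pow_of_le_one hY0 hY1 (by norm_num)
  have k2 : Y ^ 6 ≤ Y ^ 4 := pow_le_pow_of_le_one hY0 hY1 (by norm_num)
  have k3 : Y ^ 7 ≤ Y ^ 4 := pow_le_pow_of_le_one hY0 hY1 (by norm_num)
  have k4 : Y ^ 8 ≤ Y ^ 4 := pow_le_pow_of_le_one hY0 hY1 (by norm_num)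
  have p2 := pow_nonneg hY0 2
  have p4 := pow_nonneg hY0 4
  have p5 := pow_nonneg hY0 5
  linarith

/-- `N` -/
noncomputable def NN (Y : ℝ) : ℝ := 1 + 3 * (1 + Y / 2) ^ 2 * Y + 222 / 125 * Y ^ 2 * (1 + Y / 2) ^ 4

/-- `N'` -/
noncomputable def NP (Y : ℝ) : ℝ := 3 * (1 + Y / 2) ^ 2 + 3 * (1 + Y / 2) * Y +
  444 / 125 * Y * (1 + Y / 2) ^ 4 + 444 / 125 * Y ^ 2 * (1 + Y / 2) ^ 3

/-- the upper bound of `E` -/
noncomputable def EE (Y η s : ℝ) : ℝ := 1 + s * Y + s * (s + η) / 2 * Y ^ 2 +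
  (s * (s + η) * (s + 2 * η) / 6 + 3 / 200) * Y ^ 3

theorem pol_eq (Y η s : ℝ) :
    (s * EE Y η s + (1 + Y) * (1 - η * Y)) * ((1 + (1 - η) * Y) * NN Y) -
      (1 - η * Y) * ((EE Y η s + Y * (1 + Y / 2)) * ((1 / 2 + s) * NN Y +
        (1 + (1 - η) * Y) * NP Y / 6)) =
    Y * (co0 η s + co1 η s * Y + co2 η s * Y ^ 2 + co3 η s * Y ^ 3 + co4 η s * Y ^ 4 +
      co5 η s * Y ^ 5 + co6 η s * Y ^ 6 + co7 η s * Y ^ 7 + co8 η s * Y ^ 8 +
      co9 η s * Y ^ 9) := by
  unfold EE NN NP co0 co1 co2 co3 co4 co5 co6 co7 co8 co9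
  ring

/-- LS16a -/
theorem D3 {Y η s E : ℝ} (hY0 : 0 ≤ Y) (hY1 : Y ≤ 1) (hη0 : 0 ≤ η) (hη1 : η ≤ 1 / 3)
    (hs0 : 0 ≤ s) (hs1 : 2 * s + η ≤ 3957 / 5000)
    (hE : E ≤ 1 + s * Y + s * (s + η) / 2 * Y ^ 2 +
      (s * (s + η) * (s + 2 * η) / 6 + 3 / 200) * Y ^ 3) :
    (E + Y * (1 + Y / 2)) * ((1 / 2 + s) * (1 + 3 * (1 + Y / 2) ^ 2 * Y +
        222 / 125 * Y ^ 2 * (1 + Y / 2) ^ 4) +
      (1 + (1 - η) * Y) * (3 * (1 + Y / 2) ^ 2 + 3 * (1 + Y / 2) * Y +
        444 / 125 * Y * (1 + Y / 2) ^ 4 + 444 / 125 * Y ^ 2 * (1 + Y / 2) ^ 3) / 6) ≤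
    (s * E / (1 - η * Y) + 1 + Y) * ((1 + (1 - η) * Y) * (1 + 3 * (1 + Y / 2) ^ 2 * Y +
        222 / 125 * Y ^ 2 * (1 + Y / 2) ^ 4)) := by
  have hp := pol_nonneg hY0 hY1 hη0 hη1 hs0 hs1
  have he := pol_eq Y η s
  have h1 : 0 < 1 - η * Y := by nlinarith
  have h2 : 0 ≤ (1 - η) * Y := mul_nonneg (by linarith) hY0
  change (E + Y * (1 + Y / 2)) * ((1 / 2 + s) * NN Y + (1 + (1 - η) * Y) * NP Y / 6) ≤
    (s * E / (1 - η * Y) + 1 + Y) * ((1 + (1 - η) * Y) * NN Y)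
  have hE' : E ≤ EE Y η s := hE
  have hN : 0 ≤ NN Y := by unfold NN; positivity
  have hN' : 0 ≤ NP Y := by unfold NP; positivity
  obtain ⟨N, hNe⟩ : ∃ N, N = NN Y := ⟨_, rfl⟩
  obtain ⟨N', hNe'⟩ : ∃ N', N' = NP Y := ⟨_, rfl⟩
  obtain ⟨E₀, hE₀⟩ : ∃ E₀, E₀ = EE Y η s := ⟨_, rfl⟩
  rw [← hNe, ← hNe', ← hE₀] at he
  rw [← hNe] at hN ⊢
  rw [← hNe'] at hN' ⊢
  rw [← hE₀] at hE'
  have hq : 0 ≤ Y * (co0 η s + co1 η s * Y + co2 η s * Y ^ 2 + co3 η s * Y ^ 3 + co4 η s * Y ^ 4 +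
      co5 η s * Y ^ 5 + co6 η s * Y ^ 6 + co7 η s * Y ^ 7 + co8 η s * Y ^ 8 +
      co9 η s * Y ^ 9) := mul_nonneg hY0 hp
  rw [← he] at hq
  -- the coefficient of `E`
  have hc : 0 ≤ (1 - η * Y) * ((1 / 2 + s) * N + (1 + (1 - η) * Y) * N' / 6) -
      s * ((1 + (1 - η) * Y) * N) := by
    have h3 : 0 ≤ (1 - η * Y) * ((1 + (1 - η) * Y) * N' / 6) := by positivity
    have h4 : 0 ≤ ((1 - η * Y) * (1 / 2 + s) - s * (1 + (1 - η) * Y)) * N := by
      apply mul_nonneg _ hN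
      have : (1 - η * Y) * (1 / 2 + s) - s * (1 + (1 - η) * Y) = (1 - (2 * s + η) * Y) / 2 := by
        ring
      rw [this]
      have : (2 * s + η) * Y ≤ 1 * 1 := by
        apply mul_le_mul (by linarith) hY1 hY0 (by norm_num)
      linarith
    nlinarith
  have key : 0 ≤ (s * E + (1 + Y) * (1 - η * Y)) * ((1 + (1 - η) * Y) * N) -
      (1 - η * Y) * ((E + Y * (1 + Y / 2)) * ((1 / 2 + s) * N + (1 + (1 - η) * Y) * N' / 6)) := by
    have h5 := mul_nonneg hc (sub_nonneg.2 hE')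
    nlinarith
  have hmul : (E + Y * (1 + Y / 2)) * ((1 / 2 + s) * N + (1 + (1 - η) * Y) * N' / 6) * (1 - η * Y) ≤
      (s * E / (1 - η * Y) + 1 + Y) * ((1 + (1 - η) * Y) * N) * (1 - η * Y) := by
    have e3 : (s * E / (1 - η * Y) + 1 + Y) * ((1 + (1 - η) * Y) * N) * (1 - η * Y) =
        (s * E + (1 + Y) * (1 - η * Y)) * ((1 + (1 - η) * Y) * N) := by
      have e4 : s * E / (1 - η * Y) * (1 - η * Y) = s * E := div_mul_cancel₀ _ h1.ne'
      calc _ = (s * E / (1 - η * Y) * (1 - η * Y) + (1 + Y) * (1 - η * Y)) *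
            ((1 + (1 - η) * Y) * N) := by ring
        _ = _ := by rw [e4]
    rw [e3]
    linarith
  exact le_of_mul_le_mul_right hmul h1

end Pool.Agent.N868.LS
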