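import Pool.Agent.N868.LS.D4
import Pool.Agent.N868.LS.Ebound4

/-! KS17: the curve for `k = 4` (`curve4`); the proof of `curve3` by helper279
(`Pool.Agent.N279.LS.Curve`). -/

set_option autoImplicit false

namespace Pool.Agent.N868.LS.Four

open Pool.Agent.N356.SP

theorem N4_pos {y : ℝ} (hy : 0 ≤ y) : 0 < N4 y := by
  unfold N4
  positivity

theorem N4_der (y : ℝ) : HasDerivAt N4 (N4' y) y := by
  have h12 : HasDerivAt (fun y : ℝ => 1 + y / 2) (1 / 2) y := by
    have := ((hasDerivAt_id y).div_const 2).const_add 1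
    simpa using this
  have h2 := (((((h12.pow 2).const_mul 4).mul (hasDerivAt_id y)).const_add 1).add
    ((((hasDerivAt_id y).pow 2).const_mul (4141 / 1000)).mul (h12.pow 4))).add
    ((((hasDerivAt_id y).pow 3).const_mul (441 / 1000)).mul (h12.pow 6))
  have h3 : HasDerivAt N4 _ y := h2
  refine h3.congr_deriv ?_
  unfold N4'
  simp only [id, Pi.pow_apply]
  norm_num
  ring

/-- KS17 -/
theorem curve4 {Y η s : ℝ} (hY0 : 0 ≤ Y) (hY1 : Y ≤ 2 / 5) (hη0 : 0 < η) (hη1 : η ≤ 1 / 4)
    (hs0 : 0 ≤ s) (hs1 : 2 * s + η ≤ 427 / 500) :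
    (1 + (1 - η) * Y) ^ ((1 / 2 + s) / (1 - η)) * N4 Y ^ ((1:ℝ) / 8) ≤
    (1 - η * Y) ^ (-(s / η)) + Y * (1 + Y / 2) := by
  have h1η : 0 < 1 - η := by linarith
  have hB : ∀ y ∈ Set.Icc (0:ℝ) (2 / 5), 0 < 1 - η * y := by
    intro y hy
    nlinarith [hy.1, hy.2]
  have hE0 : ∀ y ∈ Set.Icc (0:ℝ) (2 / 5), 0 < (1 - η * y) ^ (-(s / η)) := fun y hy =>
    Real.rpow_pos_of_pos (hB y hy) _
  have hP : ∀ y ∈ Set.Icc (0:ℝ) (2 / 5), 0 < (1 - η * y) ^ (-(s / η)) + y * (1 + y / 2) := by
    intro y hy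
    have := hE0 y hy
    have h2 : 0 ≤ y * (1 + y / 2) := mul_nonneg hy.1 (by linarith [hy.1])
    linarith
  have hL : ∀ y ∈ Set.Icc (0:ℝ) (2 / 5), 0 < 1 + (1 - η) * y := by
    intro y hy
    have : 0 ≤ (1 - η) * y := mul_nonneg h1η.le hy.1
    linarith
  have hN : ∀ y ∈ Set.Icc (0:ℝ) (2 / 5), 0 < N4 y := fun y hy => N4_pos hy.1
  -- the derivative
  have hder : ∀ y ∈ Set.Icc (0:ℝ) (2 / 5), HasDerivAt (fun y : ℝ =>
      Real.log ((1 - η * y) ^ (-(s / η)) + y * (1 + y / 2)) -
        (1 / 2 + s) / (1 - η) * Real.log (1 + (1 - η) * y) -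
        1 / 8 * Real.log (N4 y))
      ((s * (1 - η * y) ^ (-(s / η)) / (1 - η * y) + 1 + y) /
          ((1 - η * y) ^ (-(s / η)) + y * (1 + y / 2)) -
        (1 / 2 + s) / (1 - η) * ((1 - η) / (1 + (1 - η) * y)) -
        1 / 8 * (N4' y / N4 y)) y := by
    intro y hy
    have hb : HasDerivAt (fun y : ℝ => 1 - η * y) (-η) y := by
      have := ((hasDerivAt_id y).const_mul η).const_sub 1
      simpa using this
    have hE : HasDerivAt (fun y : ℝ => (1 - η * y) ^ (-(s / η)))
        (s * (1 - η * y) ^ (-(s / η)) / (1 - η * y)) y := by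
      have h2 := hb.rpow_const (p := -(s / η)) (Or.inl (hB y hy).ne')
      refine h2.congr_deriv ?_
      rw [Real.rpow_sub_one (hB y hy).ne']
      have : -η * -(s / η) = s := by field_simp
      rw [this]
      ring
    have h12 : HasDerivAt (fun y : ℝ => 1 + y / 2) (1 / 2) y := by
      have := ((hasDerivAt_id y).div_const 2).const_add 1
      simpa using this
    have hPd : HasDerivAt (fun y : ℝ => (1 - η * y) ^ (-(s / η)) + y * (1 + y / 2))
        (s * (1 - η * y) ^ (-(s / η)) / (1 - η * y) + 1 + y) y := by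
      have h2 := hE.add ((hasDerivAt_id y).mul h12)
      refine h2.congr_deriv ?_
      simp only [id]
      ring
    have hLd : HasDerivAt (fun y : ℝ => 1 + (1 - η) * y) (1 - η) y := by
      have := ((hasDerivAt_id y).const_mul (1 - η)).const_add 1
      simpa using this
    exact ((hPd.log (hP y hy).ne').sub ((hLd.log (hL y hy).ne').const_mul _)).sub
      (((N4_der y).log (hN y hy).ne').const_mul _)
  have hnn : ∀ y ∈ Set.Icc (0:ℝ) (2 / 5),
      0 ≤ (s * (1 - η * y) ^ (-(s / η)) / (1 - η * y) + 1 + y) /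
          ((1 - η * y) ^ (-(s / η)) + y * (1 + y / 2)) -
        (1 / 2 + s) / (1 - η) * ((1 - η) / (1 + (1 - η) * y)) -
        1 / 8 * (N4' y / N4 y) := by
    intro y hy
    have h1 := D4 hy.1 hy.2 hη0.le hη1 hs0 hs1 (Ebound4 hy.1 hy.2 hη0 hη1 hs0 hs1)
    have p1 := hP y hy
    have p2 := hL y hy
    have p3 := hN y hy
    generalize (1 - η * y) ^ (-(s / η)) = E at *
    generalize s * E / (1 - η * y) + 1 + y = A at *
    generalize E + y * (1 + y / 2) = P at *
    generalize 1 + (1 - η) * y = L at *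
    generalize N4 y = N at *
    generalize N4' y = N' at *
    have h2 : (1 / 2 + s) / (1 - η) * ((1 - η) / L) = (1 / 2 + s) / L := by
      field_simp
    rw [h2]
    have h3 : A / P - (1 / 2 + s) / L - 1 / 8 * (N' / N) =
        (A * (L * N) - P * ((1 / 2 + s) * N + L * N' / 8)) / (P * (L * N)) := by
      field_simp
      ring
    rw [h3]
    exact div_nonneg (by linarith) (by positivity)
  have hmono : MonotoneOn (fun y : ℝ =>
      Real.log ((1 - η * y) ^ (-(s / η)) + y * (1 + y / 2)) -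
        (1 / 2 + s) / (1 - η) * Real.log (1 + (1 - η) * y) -
        1 / 8 * Real.log (N4 y))
      (Set.Icc 0 (2 / 5)) := by
    apply monotoneOn_of_deriv_nonneg (convex_Icc 0 (2 / 5))
    · exact fun y hy => (hder y hy).continuousAt.continuousWithinAt
    · intro y hy
      exact (hder y (interior_subset hy)).differentiableAt.differentiableWithinAt
    · intro y hy
      rw [(hder y (interior_subset hy)).deriv]
      exact hnn y (interior_subset hy)
  have hfin := hmono (Set.left_mem_Icc.2 (by norm_num)) ⟨hY0, hY1⟩ hY0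
  have hN0 : N4 0 = 1 := by unfold N4; norm_num
  simp only [mul_zero, sub_zero, Real.one_rpow, zero_mul, add_zero, Real.log_one, hN0] at hfin
  have hY : Y ∈ Set.Icc (0:ℝ) (2 / 5) := ⟨hY0, hY1⟩
  rw [← Real.log_le_log_iff (mul_pos (Real.rpow_pos_of_pos (hL Y hY) _)
      (Real.rpow_pos_of_pos (hN Y hY) _)) (hP Y hY),
    Real.log_mul (Real.rpow_pos_of_pos (hL Y hY) _).ne' (Real.rpow_pos_of_pos (hN Y hY) _).ne',
    Real.log_rpow (hL Y hY), Real.log_rpow (hN Y hY)]
  linarith

end Pool.Agent.N868.LS.Four
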